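import Pool.Agent.Q55.SD.Split

/-!
# Semisimplicity of Frobenius in the middle degree and cycles on `X × X`
-/

set_option autoImplicit false
set_option linter.unusedSectionVars false

open CategoryTheory AlgebraicGeometry Polynomial
open scoped TensorProduct

universe u v

namespace Pool.Agent.Q55.SD

open Module
open Pool.Agent.H914 Pool.Agent.H914.VarClass Pool.Agent.H914.VarClass.Obj
  Pool.Agent.H914.WeilCohomology Pool.Agent.W534 Pool.Agent.Y133.Half Pool.Agent.W552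
  Pool.Agent.H281R3.HT Pool.Agent.TH132.P Pool.Agent.H447 Pool.Agent.Q55.Gp

variable {k : Type u} [Field k] {𝒱 : VarClass k} {ops : CycleOps 𝒱}
  {W : WeilCohomology.{u, v} ops} {X Y Z : 𝒱.Obj} {p : ℕ} {Φ : FrobSystem W p} {s s' : ℕ}
  {σ : W.K →+* ℂ}

/-- The trace form and Frobenius. -/
lemma tr_frob (s : ℕ) (x y : W.H X) : trB W X (frob Φ X s x) (frob Φ X s y) =
    (card Φ X s : W.K) ^ X.dim * trB W X x y := by
  have h1 := tr_iter Φ s (x * y)
  rw [map_mul, ← card_pow] at h1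
  exact h1

/-- The number of the blocks of size two is even. -/
lemma even_two {e : ℕ} {μ : W.K} (hμ : μ ^ 2 = (card Φ X s : W.K) ^ X.dim)
    {V : Submodule W.K (W.H X)} (hV : V ≤ VE Φ X s (2 * e) μ)
    (hVF : ∀ x ∈ V, frob Φ X s x ∈ V)
    (hnd : ∀ x ∈ V, (∀ y ∈ V, W.tr X (x * y) = 0) → x = 0) : Even (cN (Nm Φ X s μ) V 1) := by
  have : CharZero W.K := W.charZero
  have hμ0 : μ ≠ 0 := by
    rintro rfl
    rw [zero_pow two_ne_zero] at hμ
    exact pow_ne_zero _ (W534.card_ne Φ s) hμ.symm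
  refine even_cN (trB W X) (frob Φ X s) hμ0 hVF (fun x hx y _ => ?_) hnd
    (fun x _ y _ => by rw [tr_frob, hμ]) (n := finrank W.K (W.H X)) fun x hx =>
      VE_nil s (2 * e) μ x (hV hx)
  rw [trB_apply, trB_apply, W.even_comm (hV hx).2]

/-- The orthogonal bound for a stable nondegenerate subspace. -/
lemma orth_of {e : ℕ} {μ : W.K} (hμ : μ ^ 2 = (card Φ X s : W.K) ^ X.dim)
    {V : Submodule W.K (W.H X)} (hV : V ≤ VE Φ X s (2 * e) μ)
    (hVF : ∀ x ∈ V, frob Φ X s x ∈ V)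
    (hnd : ∀ x ∈ V, (∀ y ∈ V, W.tr X (x * y) = 0) → x = 0) {x : W.H X} (hx : x ∈ V)
    (h0 : Nm Φ X s μ x ≠ 0) :
    OrthBound (finrank W.K V) (∑ j ∈ Finset.range (finrank W.K (W.H X)),
      cN (Nm Φ X s μ) V j ^ 2) (finrank W.K V ^ 2) := by
  have hVN : ∀ x ∈ V, Nm Φ X s μ x ∈ V := by
    intro x hx
    rw [Nm_apply]
    exact V.sub_mem (hVF x hx) (V.smul_mem _ hx)
  have hn : ∀ x ∈ V, (Nm Φ X s μ ^ finrank W.K (W.H X)) x = 0 := fun x hx =>
    VE_nil s (2 * e) μ x (hV hx)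
  obtain ⟨j, hj, hjn, hc⟩ := exists_block hVN hn hx h0
  exact orth_ineq (sum_cN hVN hn) (even_two hμ hV hVF hnd) hj hjn hc

/-- If the Frobenius endomorphism is not semisimple on the generalised eigenspace of multiplicity
`m`, then `m ≥ 3` and `6 m ≤ δ + 10`, or `m ≥ 4` and `8 m ≤ δ + 20`. -/
def SelfDualBound (m δ : ℕ) : Prop := (3 ≤ m ∧ 6 * m ≤ δ + 10) ∨ (4 ≤ m ∧ 8 * m ≤ δ + 20)

lemma VE_frob (s i : ℕ) (μ : W.K) : ∀ x ∈ VE Φ X s i μ, frob Φ X s x ∈ VE Φ X s i μ := by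
  intro x hx
  have h1 := VE_stable s i μ x hx
  have h2 : frob Φ X s x = (frob Φ X s - μ • (1 : Module.End W.K (W.H X))) x + μ • x := by
    rw [LinearMap.sub_apply, LinearMap.smul_apply, Module.End.one_apply, sub_add_cancel]
  rw [h2]
  exact Submodule.add_mem _ h1 (Submodule.smul_mem _ _ hx)

/-- Semisimplicity at one eigenvalue over a large finite field implies semisimplicity. -/
lemma diag_one {i : ℕ} {r : ℕ} (hr : 0 < r) {μ : W.K}
    (h : ¬ NotDiagonal Φ X (s * r) i (μ ^ r)) : ¬ NotDiagonal Φ X s i μ := by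
  rintro ⟨x, hx, hne⟩
  have : CharZero W.K := W.charZero
  have hx' : x ∈ VE Φ X s i μ := hx
  have hμ0 : μ ≠ 0 := by
    refine (VE_ne (Φ := Φ) (X := X) (s := s) (i := i) (μ := μ) fun h0 => ?_).1
    rw [h0, Submodule.mem_bot] at hx'
    exact hne (by rw [hx', map_zero, smul_zero])
  have key : ∀ y ∈ VE Φ X s i μ, (frob Φ X s ^ r) y = μ ^ r • y := by
    intro y hy
    have h1 : y ∈ VE Φ X (s * r) i (μ ^ r) := by
      refine ⟨?_, hy.2⟩
      have h2 := gen_mono (frob Φ X s) μ r hy.1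
      rw [← frob_mul_eq] at h2
      exact h2
    by_contra h2
    apply h
    refine ⟨y, h1, ?_⟩
    rw [frob_mul_eq]
    exact h2
  have key2 : ∀ j : ℕ, ∀ y ∈ VE Φ X s i μ, (Nm Φ X s μ ^ (j + 1)) y = 0 → Nm Φ X s μ y = 0 := by
    intro j
    induction j with
    | zero => intro y _ hy; simpa using hy
    | succ j ih =>
      intro y hy hy0
      have h3 : Nm Φ X s μ (Nm Φ X s μ y) = 0 := by
        refine ih _ (VE_stable s i μ y hy) ?_
        rw [← Module.End.mul_apply, ← pow_succ]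
        exact hy0
      have hgy : frob Φ X s y = μ • y + Nm Φ X s μ y := by rw [Nm_apply]; abel
      have hgw : frob Φ X s (Nm Φ X s μ y) = μ • Nm Φ X s μ y := by
        have h4 := h3
        rw [Nm_apply] at h4
        exact sub_eq_zero.1 h4
      have hpow : ∀ m : ℕ, (frob Φ X s ^ m) y = μ ^ m • y +
          ((m : W.K) * μ ^ (m - 1)) • Nm Φ X s μ y := by
        intro m
        induction m with
        | zero => simp
        | succ m ihm =>
          rw [pow_succ', Module.End.mul_apply, ihm, map_add, map_smul, map_smul, hgy, hgw,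
            smul_add, smul_smul, smul_smul, add_assoc, ← add_smul, Nat.add_sub_cancel, pow_succ]
          congr 2
          rcases Nat.eq_zero_or_pos m with rfl | hm
          · simp
          · obtain ⟨m', rfl⟩ := Nat.exists_eq_add_of_le' hm
            push_cast
            ring
      have h5 := key y hy
      rw [hpow r, add_eq_left] at h5
      refine (smul_eq_zero.1 h5).resolve_left (mul_ne_zero ?_ (pow_ne_zero _ hμ0))
      exact Nat.cast_ne_zero.2 hr.ne'
  apply hne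
  have h1 := VE_nil s i μ x hx'
  have h2 := key2 (finrank W.K (W.H X)) x hx' (by
    rw [pow_succ', Module.End.mul_apply, h1, map_zero])
  rw [Nm_apply] at h2
  exact sub_eq_zero.1 h2

section

variable [IsAlgClosed W.K]

/-- The bound in the middle degree. -/
theorem Lev.middle (L : Lev Φ X s s') (hp : 1 < p) (hRH : ∀ Z : 𝒱.Obj, RiemannHyp Φ σ Z) {δ : ℕ}
    (h : PoleDefect Φ σ (X.prod X) X.dim δ) {e : ℕ} (he : X.dim = 2 * e) {μ : W.K}
    (hμ : μ ^ 2 = (card Φ X s : W.K) ^ X.dim) (hn : NotDiagonal Φ X s (2 * e) μ) :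
    SelfDualBound (multK Φ X s (2 * e) μ) δ := by
  obtain ⟨x, hx, hne⟩ := hn
  have hx' : x ∈ VE Φ X s (2 * e) μ := hx
  have h1 := orth_of hμ le_rfl (VE_frob s (2 * e) μ)
    (fun x hx h => VE_nondeg Φ (show 2 * e + 2 * e = 2 * X.dim by omega)
      (show μ * μ = _ by rw [← pow_two, hμ]) hx h) hx' (by
      rw [Nm_apply]
      exact fun h0 => hne (sub_eq_zero.1 h0))
  have hbot : VE Φ X s (2 * e) μ ≠ ⊥ := by
    intro h0
    rw [h0, Submodule.mem_bot] at hx'
    exact hne (by rw [hx', map_zero, smul_zero])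
  have hsum := L.defect_ge hp hRH h
  have hmem : (2 * e) ∈ Finset.range (2 * X.dim + 1) := Finset.mem_range.2 (by omega)
  have hμe : μ ∈ eigs Φ X s := by
    by_contra h2
    exact hbot (VE_bot h2)
  have h2 : finrank W.K (VE Φ X s (2 * e) μ) ^ 2 -
      ∑ j ∈ Finset.range (finrank W.K (W.H X)), cc Φ X s (2 * e) μ j ^ 2 ≤ δ := by
    refine le_trans ?_ hsum
    refine le_trans ?_ (Finset.single_le_sum (f := fun i => ∑ μ ∈ eigs Φ X s,
      (finrank W.K (VE Φ X s i μ) ^ 2 -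
        ∑ j ∈ Finset.range (finrank W.K (W.H X)), cc Φ X s i μ j ^ 2))
      (fun _ _ => Nat.zero_le _) hmem)
    exact Finset.single_le_sum (f := fun μ => finrank W.K (VE Φ X s (2 * e) μ) ^ 2 -
        ∑ j ∈ Finset.range (finrank W.K (W.H X)), cc Φ X s (2 * e) μ j ^ 2)
        (fun _ _ => Nat.zero_le _) hμe
  have h3 : ∑ j ∈ Finset.range (finrank W.K (W.H X)), cc Φ X s (2 * e) μ j ^ 2 =
      ∑ j ∈ Finset.range (finrank W.K (W.H X)),
        cN (Nm Φ X s μ) (VE Φ X s (2 * e) μ) j ^ 2 := rfl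
  rw [h3] at h2
  have h4 : multK Φ X s (2 * e) μ = finrank W.K (VE Φ X s (2 * e) μ) := rfl
  rw [h4]
  rcases h1 with ⟨h5, h6⟩ | ⟨h5, h6⟩
  · left; omega
  · right; omega

/-- The bound for the eigenvalue of the algebraic classes. -/
theorem Lev.tate_part (L : Lev Φ X s s') (hp : 1 < p) (hRH : ∀ Z : 𝒱.Obj, RiemannHyp Φ σ Z)
    {δ : ℕ} (h : PoleDefect Φ σ (X.prod X) X.dim δ) {e : ℕ} (he : X.dim = 2 * e)
    (hD : HomEqNumIn W X e) (halg : ∀ c ∈ spanCycles W X (e : ℕ),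
      frob Φ X s c = ((card Φ X s : W.K) ^ e) • c) :
    ∃ t, multK Φ X s (2 * e) ((card Φ X s : W.K) ^ e) = numRank ops X e + t ∧
      2 * (numRank ops X e * t) ≤ δ ∧
      (NotDiagonal Φ X s (2 * e) ((card Φ X s : W.K) ^ e) →
        SelfDualBound t (δ - 2 * (numRank ops X e * t))) := by
  set μ : W.K := (card Φ X s : W.K) ^ e with hμdef
  have hμ : μ ^ 2 = (card Φ X s : W.K) ^ X.dim := by
    rw [hμdef, he, ← pow_mul, mul_comm e 2]
  have hPV : spanCycles W X (e : ℕ) ≤ VE Φ X s (2 * e) μ := fun c hc =>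
    mem_genTate_of_eig Φ (Pool.Agent.H914.span_gr hc) (halg c hc)
  have hb := Lev.ns_bound L hp hRH h he hD hPV
  obtain ⟨hdis, hsup, hfin, hnum⟩ := split_data he hD hPV
  set T := perp W (VE Φ X s (2 * e) μ) (spanCycles W X (e : ℕ)) with hT
  have hTV : T ≤ VE Φ X s (2 * e) μ := fun x hx => hx.1
  have hTF : ∀ x ∈ T, frob Φ X s x ∈ T := Lev.stb_perp L e _ L.frob_mem
  have hTN : ∀ x ∈ T, Nm Φ X s μ x ∈ T := by
    intro x hx
    rw [Nm_apply]
    exact T.sub_mem (hTF x hx) (T.smul_mem _ hx)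
  have hnil : ∀ x ∈ T, (Nm Φ X s μ ^ finrank W.K (W.H X)) x = 0 := fun x hx =>
    VE_nil s (2 * e) μ x (hTV hx)
  have hsq := sq_le_mult (sum_cN hTN hnil)
  have hfin' : finrank W.K (VE Φ X s (2 * e) μ) = numRank ops X e + finrank W.K T := by
    rw [hnum, hfin]
  have hexp : finrank W.K (VE Φ X s (2 * e) μ) ^ 2 = numRank ops X e ^ 2 +
      2 * (numRank ops X e * finrank W.K T) + finrank W.K T ^ 2 := by
    rw [hfin']
    ring
  refine ⟨finrank W.K T, hfin', by omega, ?_⟩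
  rintro ⟨x, hx, hne⟩
  have hx' : x ∈ VE Φ X s (2 * e) μ := hx
  rw [← hsup] at hx'
  obtain ⟨a, ha, t, ht, rfl⟩ := Submodule.mem_sup.1 hx'
  have hna : Nm Φ X s μ a = 0 := by
    rw [Nm_apply, halg a ha, sub_self]
  have hnt : Nm Φ X s μ t ≠ 0 := by
    intro h0
    apply hne
    have h1 : Nm Φ X s μ (a + t) = 0 := by rw [map_add, hna, h0, add_zero]
    rw [Nm_apply] at h1
    exact sub_eq_zero.1 h1
  have h1 := orth_of hμ hTV hTF (fun x hx h2 => by
    refine VE_nondeg Φ (show 2 * e + 2 * e = 2 * X.dim by omega)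
      (show μ * μ = _ by rw [← pow_two, hμ]) (hTV hx) fun y hy => ?_
    rw [← hsup] at hy
    obtain ⟨b, hb, r, hr, rfl⟩ := Submodule.mem_sup.1 hy
    rw [mul_add, map_add, hx.2 b hb, h2 r hr, add_zero]) ht hnt
  rcases h1 with ⟨h5, h6⟩ | ⟨h5, h6⟩
  · left; omega
  · right; omega

end

end Pool.Agent.Q55.SD
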