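import Pool.Agent.Q55.Gp.Jor

/-!
# Linear algebra: unipotent similitudes of symmetric forms and their Jordan types
-/

set_option autoImplicit false
set_option linter.unusedSectionVars false

open Module

namespace Pool.Agent.Q55.SD

open Pool.Agent.Q55.Gp

section Alt

variable {K V : Type*} [Field K] [CharZero K] [AddCommGroup V] [Module K V] [Module.Finite K V]

/-- A nondegenerate alternating form lives on a space of even dimension. -/
lemma even_of_nondeg (B : V →ₗ[K] V →ₗ[K] K) (hB : ∀ x y, B x y = -B y x)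
    (hnd : ∀ x, (∀ y, B x y = 0) → x = 0) : Even (finrank K V) := by
  classical
  set b := Module.finBasis K V with hb
  set A : Matrix (Fin (finrank K V)) (Fin (finrank K V)) K := Matrix.of fun i j => B (b i) (b j)
    with hA
  have hT : A.transpose = -A := by
    ext i j
    rw [Matrix.transpose_apply, Matrix.neg_apply, hA, Matrix.of_apply, Matrix.of_apply]
    exact hB _ _
  have hdet : A.det ≠ 0 := by
    intro h0
    obtain ⟨v, hv, hv0⟩ := Matrix.exists_vecMul_eq_zero_iff.2 h0
    have hx : (∑ i, v i • b i) = 0 := by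
      apply hnd
      intro y
      have hy : y = ∑ j, b.repr y j • b j := (b.sum_repr y).symm
      rw [hy, map_sum]
      refine Finset.sum_eq_zero fun j _ => ?_
      rw [map_smul, smul_eq_mul]
      have h1 : B (∑ i, v i • b i) (b j) = 0 := by
        rw [map_sum, LinearMap.sum_apply]
        have h2 := congrArg (fun F => F j) hv0
        simp only [Matrix.vecMul, dotProduct, Pi.zero_apply] at h2
        rw [← h2]
        refine Finset.sum_congr rfl fun i _ => ?_
        rw [map_smul, LinearMap.smul_apply, smul_eq_mul]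
        rfl
      rw [h1, mul_zero]
    apply hv
    funext i
    exact (Fintype.linearIndependent_iff.1 b.linearIndependent) v hx i
  have h1 : A.det = (-1) ^ (finrank K V) * A.det := by
    have h2 := congrArg Matrix.det hT
    rw [Matrix.det_transpose, Matrix.det_neg, Fintype.card_fin] at h2
    exact h2
  by_contra hodd
  rw [Nat.not_even_iff_odd] at hodd
  rw [hodd.neg_one_pow] at h1
  have h3 : (2 : K) * A.det = 0 := by linear_combination h1
  exact hdet ((mul_eq_zero.1 h3).resolve_left two_ne_zero)

/-- The rank of an alternating form is even. -/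
lemma even_rank (B : V →ₗ[K] V →ₗ[K] K) (hB : ∀ x y, B x y = -B y x) :
    Even (finrank K (LinearMap.range B)) := by
  obtain ⟨C, hC⟩ := Submodule.exists_isCompl (LinearMap.ker B)
  have h1 := Submodule.finrank_add_eq_of_isCompl hC
  have h2 := LinearMap.finrank_range_add_finrank_ker B
  have h3 : finrank K (LinearMap.range B) = finrank K C := by omega
  rw [h3]
  refine even_of_nondeg ((LinearMap.lcomp K K C.subtype) ∘ₗ B ∘ₗ C.subtype)
    (fun x y => hB x y) fun x hx => ?_
  have h4 : (x : V) ∈ LinearMap.ker B := by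
    rw [LinearMap.mem_ker]
    apply LinearMap.ext
    intro y
    have hy : y ∈ LinearMap.ker B ⊔ C := by rw [hC.sup_eq_top]; trivial
    obtain ⟨a, ha, c, hc, rfl⟩ := Submodule.mem_sup.1 hy
    rw [map_add, hB, LinearMap.mem_ker.1 ha, LinearMap.zero_apply, neg_zero, zero_add]
    exact hx ⟨c, hc⟩
  exact Subtype.ext (Submodule.disjoint_def.1 hC.disjoint _ h4 x.2)

/-- The ranks of the first and the third power of the nilpotent part of a unipotent similitude of a
nondegenerate symmetric form are even. -/
theorem even_ranks (B : V →ₗ[K] V →ₗ[K] K) (hsym : ∀ x y, B x y = B y x)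
    (hnd : ∀ x, (∀ y, B x y = 0) → x = 0) (F : Module.End K V) {μ : K} (hμ : μ ≠ 0)
    (hF : ∀ x y, B (F x) (F y) = μ ^ 2 * B x y)
    (hnil : IsNilpotent (F - μ • (1 : Module.End K V))) :
    Even (finrank K (LinearMap.range (F - μ • (1 : Module.End K V)))) ∧
      Even (finrank K (LinearMap.range ((F - μ • (1 : Module.End K V)) ^ 3))) := by
  set N : Module.End K V := F - μ • (1 : Module.End K V) with hN
  have hFN : F = N + μ • (1 : Module.End K V) := by rw [hN, sub_add_cancel]
  have hunit : ∀ c : K, c ≠ 0 → IsUnit (N + c • (1 : Module.End K V)) := by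
    intro c hc
    have h1 : IsUnit (c • (1 : Module.End K V)) := by
      refine ⟨⟨c • 1, c⁻¹ • 1, ?_, ?_⟩, rfl⟩
      · rw [smul_mul_smul_comm, mul_inv_cancel₀ hc, one_smul, one_mul]
      · rw [smul_mul_smul_comm, inv_mul_cancel₀ hc, one_smul, one_mul]
    rw [add_comm]
    exact hnil.isUnit_add_left_of_commute h1 ((Commute.one_right _).smul_right _)
  have hFu : IsUnit F := by rw [hFN]; exact hunit μ hμ
  set a : Module.End K V := N + (2 * μ) • (1 : Module.End K V) with ha
  have hau : IsUnit a := hunit _ (mul_ne_zero two_ne_zero hμ)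
  have hFbij : Function.Bijective F := (Module.End.isUnit_iff _).1 hFu
  have habij : Function.Bijective a := (Module.End.isUnit_iff _).1 hau
  set L : Module.End K V := N * a with hL
  have hLx : ∀ x, L x = F (F x) - μ ^ 2 • x := by
    intro x
    rw [hL, ha, hFN]
    simp only [Module.End.mul_apply, LinearMap.add_apply, LinearMap.smul_apply,
      Module.End.one_apply, map_add, map_smul, smul_add, smul_smul]
    rw [show 2 * μ = μ + μ by ring, add_smul, pow_two]
    abel
  have hadj : ∀ x y, B (L x) (F y) = -B (F x) (L y) := by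
    intro x y
    rw [hLx, hLx, map_sub, LinearMap.sub_apply, map_sub, map_smul, map_smul,
      LinearMap.smul_apply, hF (F x) y, hF x (F y)]
    simp only [smul_eq_mul]
    ring
  have hLF : ∀ x, L (F x) = F (L x) := by
    intro x
    rw [hLx, hLx, map_sub, map_smul]
  have hcomm : Commute N a := (Commute.refl _).add_right ((Commute.one_right _).smul_right _)
  -- the ranks of the powers of `L`
  have hrk : ∀ j : ℕ, LinearMap.range (L ^ j) = LinearMap.range (N ^ j) := by
    intro j
    have h1 : L ^ j = N ^ j * a ^ j := hcomm.mul_pow j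
    have h2 : Function.Surjective (a ^ j : Module.End K V) :=
      ((Module.End.isUnit_iff _).1 (hau.pow j)).2
    rw [h1]
    apply le_antisymm
    · rintro _ ⟨x, rfl⟩
      exact ⟨_, rfl⟩
    · rintro _ ⟨x, rfl⟩
      obtain ⟨y, rfl⟩ := h2 x
      exact ⟨y, rfl⟩
  -- the alternating forms
  have key : ∀ j : ℕ, (∀ x y, B ((L ^ j) x) ((F ^ j) y) = -B ((L ^ j) y) ((F ^ j) x)) →
      Even (finrank K (LinearMap.range (N ^ j))) := by
    intro j hj
    set φ : V →ₗ[K] V →ₗ[K] K := (LinearMap.lcomp K K (F ^ j)) ∘ₗ B ∘ₗ (L ^ j) with hφ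
    have h1 := even_rank φ hj
    have hFj : Function.Surjective (F ^ j : Module.End K V) :=
      ((Module.End.isUnit_iff _).1 (hFu.pow j)).2
    have h2 : Function.Injective ((LinearMap.lcomp K K (F ^ j)) ∘ₗ B) := by
      refine (injective_iff_map_eq_zero _).2 fun x hx => hnd x fun y => ?_
      obtain ⟨z, rfl⟩ := hFj y
      exact congrArg (fun f => f z) hx
    have h3 : LinearMap.range φ = (LinearMap.range (L ^ j)).map
        ((LinearMap.lcomp K K (F ^ j)) ∘ₗ B) := by
      rw [← LinearMap.range_comp]
      rfl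
    rw [h3, hrk, LinearEquiv.finrank_eq (Submodule.equivMapOfInjective _ h2 _).symm] at h1
    exact h1
  constructor
  · have h1 := key 1 (fun x y => by
      rw [pow_one, pow_one, hadj, hsym (F x)])
    rwa [pow_one] at h1
  · refine key 3 fun x y => ?_
    have e : ∀ (g : Module.End K V) (x : V), (g ^ 3) x = g (g (g x)) := by
      intro g x
      rw [pow_succ, pow_succ, pow_one, Module.End.mul_apply, Module.End.mul_apply]
    rw [e, e, e, e]
    have h1 : B (L (L (L x))) (F (F (F y))) = -B (L (F (L x))) (F (L (F y))) := by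
      rw [hadj (L (L x)) (F (F y)), hLF (L x), hLF (F y)]
    have h2 : B (L (F (L x))) (F (L (F y))) = -B (L (F (F x))) (F (L (L y))) := by
      rw [hadj (F (L x)) (L (F y)), hLF (F x), hLF x, ← hLF (L y), ← hLF y]
    have h3 : B (L (F (F x))) (F (L (L y))) = -B (L (L (L y))) (F (F (F x))) := by
      rw [hadj (F (F x)) (L (L y)), hsym (F (F (F x)))]
    rw [h1, h2, h3, neg_neg]

end Alt

section Block

variable {K H : Type*} [Field K] [AddCommGroup H] [Module K H] [Module.Finite K H]
  {N : Module.End K H} {V : Submodule K H}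

/-- The dimensions of the spaces `KN`. -/
lemma finrank_KN (hV : ∀ x ∈ V, N x ∈ V) (j : ℕ) : finrank K (KN N V j) +
    finrank K (LinearMap.ker (N ^ j) ⊓ V : Submodule K H) =
      finrank K (LinearMap.ker (N ^ (j + 1)) ⊓ V : Submodule K H) := by
  set S := (LinearMap.ker (N ^ (j + 1)) ⊓ V : Submodule K H) with hS
  have hmem : ∀ x : S, (N ^ j) x ∈ KN N V j := by
    rintro ⟨x, hx⟩
    refine ⟨pow_stays hV j hx.2, ?_, x, hx.2, rfl⟩
    rw [← Module.End.mul_apply, ← pow_succ']
    exact hx.1
  set φ : S →ₗ[K] KN N V j := ((N ^ j) ∘ₗ S.subtype).codRestrict _ hmem with hφ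
  have h1 := LinearMap.finrank_range_add_finrank_ker φ
  have h2 : LinearMap.range φ = ⊤ := by
    rw [eq_top_iff]
    rintro ⟨x, hx, hx0, y, hy, hyx⟩ -
    refine ⟨⟨y, ?_, hy⟩, Subtype.ext hyx⟩
    change (N ^ (j + 1)) y = 0
    rw [pow_succ', Module.End.mul_apply, hyx, hx0]
  have h3 : finrank K (LinearMap.ker φ) =
      finrank K (LinearMap.ker (N ^ j) ⊓ V : Submodule K H) := by
    have hle : (LinearMap.ker (N ^ j) ⊓ V : Submodule K H) ≤ S := by
      rintro x ⟨hx, hxg⟩
      refine ⟨?_, hxg⟩
      change (N ^ (j + 1)) x = 0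
      rw [pow_succ', Module.End.mul_apply, show (N ^ j) x = 0 from hx, map_zero]
    have h4 : LinearMap.ker φ = (LinearMap.ker (N ^ j) ⊓ V : Submodule K H).comap
        S.subtype := by
      ext x
      rw [LinearMap.mem_ker, Submodule.mem_comap]
      constructor
      · intro h
        exact ⟨congrArg Subtype.val h, x.2.2⟩
      · intro h
        exact Subtype.ext h.1
    rw [h4]
    exact LinearEquiv.finrank_eq (Submodule.comapSubtypeEquivOfLe hle)
  rw [h2, finrank_top, h3] at h1
  exact h1

/-- The rank of the powers on the subspace. -/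
lemma finrank_restrict (hV : ∀ x ∈ V, N x ∈ V) (j : ℕ) :
    finrank K (LinearMap.range ((N.restrict hV) ^ j)) +
      finrank K (LinearMap.ker (N ^ j) ⊓ V : Submodule K H) = finrank K V := by
  have h1 := LinearMap.finrank_range_add_finrank_ker ((N.restrict hV) ^ j)
  have hpow : ∀ x : V, ((((N.restrict hV) ^ j) x : V) : H) = (N ^ j) (x : H) := by
    intro x
    induction j with
    | zero => rfl
    | succ j ih =>
      have ih' := fun x => ih x
      rw [pow_succ', pow_succ', Module.End.mul_apply, Module.End.mul_apply, ← ih' (by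
        exact LinearMap.finrank_range_add_finrank_ker _)]
      rfl
  have h2 : LinearMap.ker ((N.restrict hV) ^ j) =
      (LinearMap.ker (N ^ j) ⊓ V : Submodule K H).comap V.subtype := by
    ext x
    rw [LinearMap.mem_ker, Submodule.mem_comap]
    constructor
    · intro h
      refine ⟨?_, x.2⟩
      change (N ^ j) (x : H) = 0
      rw [← hpow, h]
      rfl
    · intro h
      apply Subtype.ext
      rw [hpow]
      exact h.1
  have h3 : finrank K (LinearMap.ker ((N.restrict hV) ^ j)) =
      finrank K (LinearMap.ker (N ^ j) ⊓ V : Submodule K H) := by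
    rw [h2]
    exact LinearEquiv.finrank_eq (Submodule.comapSubtypeEquivOfLe inf_le_right)
  omega

/-- The number of the blocks of size two of a unipotent similitude is even. -/
theorem even_cN [CharZero K] (B : H →ₗ[K] H →ₗ[K] K) (F : Module.End K H) {μ : K} (hμ : μ ≠ 0)
    (hVF : ∀ x ∈ V, F x ∈ V) (hsym : ∀ x ∈ V, ∀ y ∈ V, B x y = B y x)
    (hnd : ∀ x ∈ V, (∀ y ∈ V, B x y = 0) → x = 0)
    (hF : ∀ x ∈ V, ∀ y ∈ V, B (F x) (F y) = μ ^ 2 * B x y) {n : ℕ}
    (hn : ∀ x ∈ V, ((F - μ • (1 : Module.End K H)) ^ n) x = 0) :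
    Even (cN (F - μ • (1 : Module.End K H)) V 1) := by
  set N := F - μ • (1 : Module.End K H) with hN
  have hV : ∀ x ∈ V, N x ∈ V := by
    intro x hx
    rw [hN, LinearMap.sub_apply, LinearMap.smul_apply, Module.End.one_apply]
    exact V.sub_mem (hVF x hx) (V.smul_mem _ hx)
  have hNr : N.restrict hV = F.restrict hVF - μ • (1 : Module.End K V) := by
    apply LinearMap.ext
    intro x
    rfl
  have hnil : IsNilpotent (F.restrict hVF - μ • (1 : Module.End K V)) := by
    rw [← hNr]
    refine ⟨n, ?_⟩
    apply LinearMap.ext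
    intro x
    have h1 : ∀ j : ℕ, ((((N.restrict hV) ^ j) x : V) : H) = (N ^ j) (x : H) := by
      intro j
      induction j with
      | zero => rfl
      | succ j ih =>
        rw [pow_succ', pow_succ', Module.End.mul_apply, Module.End.mul_apply, ← ih]
        rfl
    apply Subtype.ext
    rw [h1 n]
    exact hn x x.2
  have h1 := even_ranks ((LinearMap.lcomp K K V.subtype) ∘ₗ B ∘ₗ V.subtype)
    (fun x y => hsym x x.2 y y.2) (fun x hx => Subtype.ext (hnd x x.2 fun y hy => hx ⟨y, hy⟩))
    (F.restrict hVF) hμ (fun x y => hF x x.2 y y.2) hnil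
  rw [← hNr] at h1
  obtain ⟨⟨r1, hr1⟩, ⟨r3, hr3⟩⟩ := h1
  have e1 := finrank_restrict hV 1
  rw [pow_one, pow_one] at e1
  have e2 := finrank_restrict hV 2
  have e3 := finrank_restrict hV 3
  have f1 := finrank_KN hV 1
  have f2 := finrank_KN hV 2
  have h4 : finrank K (KN N V 2) ≤ finrank K (KN N V 1) :=
    Submodule.finrank_mono (KN_succ_le hV 1)
  rw [pow_one] at f1
  have hc : cN N V 1 = finrank K (KN N V 1) - finrank K (KN N V 2) := rfl
  rw [hc, Nat.even_iff]
  rw [show (1 + 1 : ℕ) = 2 from rfl] at f1
  rw [show (2 + 1 : ℕ) = 3 from rfl] at f2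
  omega

end Block

end Pool.Agent.Q55.SD
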