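import Pool.Agent.Q55.SD.Fin
import Pool.Agent.Q55.Gp.Final

/-!
# Semisimplicity of Frobenius in the middle degree and cycles on `X × X`: the theorem
-/

set_option autoImplicit false
set_option linter.unusedSectionVars false

open CategoryTheory AlgebraicGeometry

universe u v

namespace Pool.Agent.Q55.SD

open Module
open Pool.Agent.H914 Pool.Agent.H914.VarClass Pool.Agent.H914.VarClass.Obj
  Pool.Agent.H914.WeilCohomology Pool.Agent.W534 Pool.Agent.TH132.P Pool.Agent.H447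
  Pool.Agent.Q55.Gp

variable {k : Type u} [Field k] {𝒱 : VarClass k} {ops : CycleOps 𝒱}
  {W : WeilCohomology.{u, v} ops} {X : 𝒱.Obj} {p : ℕ} {Φ : FrobSystem W p} {σ : W.K →+* ℂ}

/-- For the Frobenius endomorphism `F` of the variety `X` of dimension `2 e`, over the field with
`q = card Φ X s` elements, and each eigenvalue `μ` on `H^(2 e)(X)` for which there is a Jordan block
of size at least two: if `μ ^ 2 = q ^ (2 e)` then the multiplicity `m` of `μ` satisfies `m ≥ 3` and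
`6 m ≤ δ + 10`, or `m ≥ 4` and `8 m ≤ δ + 20`; if `μ ^ 2 ≠ q ^ (2 e)` then `m ≥ 2` and
`8 m ≤ δ + 10`. -/
def MiddleBound (Φ : FrobSystem W p) (X : 𝒱.Obj) (s e δ : ℕ) : Prop :=
  ∀ μ, NotDiagonal Φ X s (2 * e) μ →
    (μ ^ 2 = (card Φ X s : W.K) ^ X.dim → SelfDualBound (multK Φ X s (2 * e) μ) δ) ∧
    (μ ^ 2 ≠ (card Φ X s : W.K) ^ X.dim →
      2 ≤ multK Φ X s (2 * e) μ ∧ 8 * multK Φ X s (2 * e) μ ≤ δ + 10)

/-- For the eigenvalue `q ^ e` on `H^(2 e)(X)`: its multiplicity is the sum of the rank `ρ` of the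
cycles of codimension `e` modulo numerical equivalence and of a number `r` with `2 ρ r ≤ δ`. If
there is a Jordan block of size at least two for `q ^ e`, then `r ≥ 3` and
`6 r ≤ (δ - 2 ρ r) + 10`, or `r ≥ 4` and `8 r ≤ (δ - 2 ρ r) + 20`. -/
def TateBound (Φ : FrobSystem W p) (X : 𝒱.Obj) (s e δ : ℕ) : Prop :=
  ∃ r, multK Φ X s (2 * e) ((card Φ X s : W.K) ^ e) = numRank ops X e + r ∧
    2 * (numRank ops X e * r) ≤ δ ∧
    (NotDiagonal Φ X s (2 * e) ((card Φ X s : W.K) ^ e) →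
      SelfDualBound r (δ - 2 * (numRank ops X e * r)))

variable [IsAlgClosed W.K]

theorem main (hp : 1 < p) (hRH : ∀ Z : 𝒱.Obj, RiemannHyp Φ σ Z) {e : ℕ} (he : X.dim = 2 * e)
    {δ : ℕ} (h : PoleDefect Φ σ (X.prod X) X.dim δ) :
    (∃ t, 0 < t ∧ ∀ s, 0 < s → t ∣ s → MiddleBound Φ X s e δ) ∧
    (δ ≤ 5 → ∀ i, Diagonalisable Φ X i) ∧
    (HomEqNumIn W X e →
      (∃ t, 0 < t ∧ ∀ s, 0 < s → t ∣ s → TateBound Φ X s e δ) ∧
      (δ < 6 * numRank ops X e + 8 →
        ∀ s, 0 < s → ¬ NotDiagonal Φ X s (2 * e) ((card Φ X s : W.K) ^ e)) ∧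
      (δ < 2 * numRank ops X e → PoleDefect Φ σ X e 0)) := by
  obtain ⟨t, ht, hlev⟩ := exists_lev Φ X
  have hmid : ∀ s, 0 < s → t ∣ s → MiddleBound Φ X s e δ := by
    intro s hs hts μ hn
    obtain ⟨s', L⟩ := hlev s hs hts
    refine ⟨fun hμ => Lev.middle L hp hRH h he hμ hn, fun hμ => ?_⟩
    obtain ⟨h1, h2, h3⟩ := L.not_diag_le hp hRH h hn
    exact ⟨h1, h3 (Or.inr hμ)⟩
  refine ⟨⟨t, ht, hmid⟩, ?_, fun hD => ?_⟩
  · intro hδ i
    by_cases hi : i = X.dim
    · subst hi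
      refine diagonalisable_of fun s hs μ => diag_of_large ht (fun ν hn => ?_) μ
      rw [he] at hn
      have h1 := hmid (s * t) (Nat.mul_pos hs ht) (Nat.dvd_mul_left _ _) ν hn
      by_cases hν : ν ^ 2 = (card Φ X (s * t) : W.K) ^ X.dim
      · rcases h1.1 hν with ⟨h2, h3⟩ | ⟨h2, h3⟩ <;> omega
      · have h2 := h1.2 hν
        omega
    · exact (jordan_type hp hRH h).2.2 hδ i hi
  · obtain ⟨t₁, ht₁, h1⟩ := exists_span_eig (W := W) Φ X e
    have htate : ∀ s, 0 < s → t * t₁ ∣ s → TateBound Φ X s e δ := by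
      rintro _ hs ⟨a, rfl⟩
      obtain ⟨s', L⟩ := hlev (t * t₁ * a) hs ⟨t₁ * a, by ring⟩
      refine Lev.tate_part L hp hRH h he hD fun c hc => ?_
      have h2 := span_eig_mul' Φ (h1 c hc) (t * a)
      rwa [show t * a * t₁ = t * t₁ * a by ring] at h2
    refine ⟨⟨t * t₁, Nat.mul_pos ht ht₁, htate⟩, ?_, ?_⟩
    · intro hδ s hs
      refine diag_one (Nat.mul_pos ht ht₁) fun hn => ?_
      have hμ : ((card Φ X s : W.K) ^ e) ^ (t * t₁) = (card Φ X (s * (t * t₁)) : W.K) ^ e := by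
        rw [card_mul_eq, Nat.cast_pow, ← pow_mul, ← pow_mul, mul_comm]
      rw [hμ] at hn
      obtain ⟨r, h2, h3, h4⟩ := htate (s * (t * t₁)) (Nat.mul_pos hs (Nat.mul_pos ht ht₁))
        (Nat.dvd_mul_left _ _)
      rcases h4 hn with ⟨h5, h6⟩ | ⟨h5, h6⟩
      · have h7 : numRank ops X e * 3 ≤ numRank ops X e * r := Nat.mul_le_mul_left _ h5
        omega
      · have h7 : numRank ops X e * 4 ≤ numRank ops X e * r := Nat.mul_le_mul_left _ h5
        omega
    · intro hδ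
      obtain ⟨t₂, ht₂, h2⟩ := exists_large Φ X
      set s := t * t₁ * t₂ with hs
      have hs0 : 0 < s := Nat.mul_pos (Nat.mul_pos ht ht₁) ht₂
      obtain ⟨r, h3, h4, -⟩ := htate s hs0 (Nat.dvd_mul_right _ _)
      have hr : r = 0 := by
        by_contra hr0
        have h5 : numRank ops X e * 1 ≤ numRank ops X e * r :=
          Nat.mul_le_mul_left _ (Nat.one_le_iff_ne_zero.2 hr0)
        omega
      rw [hr, add_zero] at h3
      have h5 : genTate Φ X s e = genT Φ X e :=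
        (h2 s hs0 (Nat.dvd_mul_left _ _)).2 e (by omega)
      refine poleDefect_of hp (hRH _) (by omega) ?_
      rw [← h5, add_zero, ← h3]
      rfl

end Pool.Agent.Q55.SD
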