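import Pool.Agent.Q55.Gp.JSum
import Pool.Agent.Q55.SD.Lin

/-!
# Jordan types with an even number of blocks of size two
-/

set_option autoImplicit false
set_option linter.unusedSectionVars false

open Module

namespace Pool.Agent.Q55.SD

open Pool.Agent.Q55.Gp

/-- The bounds for the Jordan types of unipotent similitudes of symmetric forms. -/
def OrthBound (m a b : ℕ) : Prop := (3 ≤ m ∧ a + 6 * m ≤ b + 10) ∨ (4 ≤ m ∧ a + 8 * m ≤ b + 20)

/-- The inequality for nilpotent operators with a block of size at least three. -/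
lemma big_block {n m : ℕ} {c : ℕ → ℕ} (hm : ∑ k ∈ Finset.range n, (k + 1) * c k = m) {j : ℕ}
    (hj : 2 ≤ j) (hjn : j < n) (hc : 0 < c j) :
    3 ≤ m ∧ ∑ k ∈ Finset.range n, c k ^ 2 + 6 * m ≤ m ^ 2 + 10 := by
  classical
  have hmem : j ∈ Finset.range n := Finset.mem_range.2 hjn
  rw [← Finset.add_sum_erase _ _ hmem] at hm ⊢
  set b := ∑ k ∈ (Finset.range n).erase j, c k with hb
  have h1 : ∑ k ∈ (Finset.range n).erase j, c k ^ 2 ≤ b ^ 2 := sum_sq_le _ c
  have h2 : b ≤ ∑ k ∈ (Finset.range n).erase j, (k + 1) * c k := sum_le_weighted _ c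
  have h3 : 3 * c j ≤ (j + 1) * c j := Nat.mul_le_mul_right _ (by omega)
  obtain ⟨a, ha⟩ := Nat.exists_eq_add_of_le' hc
  rw [ha] at hm h3 ⊢
  set r := ∑ k ∈ (Finset.range n).erase j, (k + 1) * c k
  set r2 := ∑ k ∈ (Finset.range n).erase j, c k ^ 2
  obtain ⟨x, hx⟩ : ∃ x, m = 3 * (a + 1) + b + x := ⟨m - (3 * (a + 1) + b), by omega⟩
  refine ⟨by omega, ?_⟩
  rw [hx]
  nlinarith [Nat.zero_le (a * b), Nat.zero_le (a * a), Nat.zero_le (x * x), Nat.zero_le (x * a),
    Nat.zero_le (x * b), Nat.zero_le a, Nat.zero_le b, Nat.zero_le x]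

/-- The inequality for orthogonal Jordan types. -/
theorem orth_ineq {n m : ℕ} {c : ℕ → ℕ} (hm : ∑ k ∈ Finset.range n, (k + 1) * c k = m)
    (he : Even (c 1)) {j : ℕ} (hj : 0 < j) (hjn : j < n) (hc : 0 < c j) :
    OrthBound m (∑ k ∈ Finset.range n, c k ^ 2) (m ^ 2) := by
  by_cases h : ∃ i, 2 ≤ i ∧ i < n ∧ 0 < c i
  · obtain ⟨i, hi, hin, hci⟩ := h
    exact Or.inl (big_block hm hi hin hci)
  push Not at h
  have h1 : j = 1 := by
    by_contra hne
    have := h j (by omega) hjn
    omega
  subst h1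
  have hz : ∀ i ∈ Finset.range n, i ∉ ({0, 1} : Finset ℕ) → c i = 0 := by
    intro i hi hi'
    rw [Finset.mem_insert, Finset.mem_singleton, not_or] at hi'
    have := h i (by omega) (Finset.mem_range.1 hi)
    omega
  have hsub : ({0, 1} : Finset ℕ) ⊆ Finset.range n := by
    intro i hi
    rw [Finset.mem_insert, Finset.mem_singleton] at hi
    rw [Finset.mem_range]
    omega
  have e1 : ∑ k ∈ Finset.range n, (k + 1) * c k = c 0 + 2 * c 1 := by
    rw [← Finset.sum_subset hsub fun i hi hi' => by rw [hz i hi hi', mul_zero],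
      Finset.sum_pair (by norm_num)]
    ring
  have e2 : ∑ k ∈ Finset.range n, c k ^ 2 = c 0 ^ 2 + c 1 ^ 2 := by
    rw [← Finset.sum_subset hsub fun i hi hi' => by rw [hz i hi hi']; rfl,
      Finset.sum_pair (by norm_num)]
  obtain ⟨a, ha⟩ := he
  obtain ⟨a', rfl⟩ : ∃ a', a = a' + 1 := ⟨a - 1, by omega⟩
  rw [e1] at hm
  right
  rw [e2, ha, ← hm, ha]
  refine ⟨by omega, ?_⟩
  nlinarith [Nat.zero_le (a' * c 0), Nat.zero_le (a' * a'), Nat.zero_le a', Nat.le_mul_self a']

variable {K H : Type*} [Field K] [AddCommGroup H] [Module K H] [Module.Finite K H]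
  {N : Module.End K H} {V : Submodule K H}

/-- The sum of the sizes of the Jordan blocks is the dimension. -/
lemma sum_cN (hV : ∀ x ∈ V, N x ∈ V) {n : ℕ} (hn : ∀ x ∈ V, (N ^ n) x = 0) :
    ∑ j ∈ Finset.range n, (j + 1) * cN N V j = finrank K V := by
  have h1 : ∀ j, finrank K (KN N V (j + 1)) ≤ finrank K (KN N V j) := fun j =>
    Submodule.finrank_mono (KN_succ_le hV j)
  have h2 : finrank K (KN N V n) = 0 := by
    rw [KN_bot hn, finrank_bot]
  refine (abel h1 h2).trans ?_
  have h3 : ∀ n, ∑ j ∈ Finset.range n, finrank K (KN N V j) =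
      finrank K (LinearMap.ker (N ^ n) ⊓ V : Submodule K H) := by
    intro n
    induction n with
    | zero =>
      have : (LinearMap.ker (N ^ 0) ⊓ V : Submodule K H) = ⊥ := by
        rw [pow_zero, Module.End.one_eq_id, LinearMap.ker_id, bot_inf_eq]
      rw [this, finrank_bot, Finset.sum_range_zero]
    | succ n ih => rw [Finset.sum_range_succ, ih, add_comm, finrank_KN hV]
  have h4 : (LinearMap.ker (N ^ n) ⊓ V : Submodule K H) = V :=
    inf_eq_right.2 fun x hx => hn x hx
  rw [h3, h4]

/-- A nonzero nilpotent operator has a block of size at least two. -/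
lemma exists_block (hV : ∀ x ∈ V, N x ∈ V) {n : ℕ} (hn : ∀ x ∈ V, (N ^ n) x = 0) {x : H}
    (hx : x ∈ V) (h0 : N x ≠ 0) : ∃ j, 0 < j ∧ j < n ∧ 0 < cN N V j := by
  set w : ℕ → ℕ := fun j => finrank K (KN N V j) with hw
  have hwn : w n = 0 := by
    simp only [hw]
    rw [KN_bot hn, finrank_bot]
  have hw1 : w 1 ≠ 0 := by
    intro h1
    have h2 : KN N V 1 = ⊥ := Submodule.finrank_eq_zero.1 h1
    have key : ∀ j : ℕ, ∀ y ∈ V, (N ^ (j + 1)) y = 0 → N y = 0 := by
      intro j
      induction j with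
      | zero => intro y _ hy; simpa using hy
      | succ j ih =>
        intro y hy hy0
        have h3 : N (N y) = 0 := by
          refine ih _ (hV y hy) ?_
          rw [← Module.End.mul_apply, ← pow_succ]
          exact hy0
        have h4 : N y ∈ KN N V 1 := ⟨hV y hy, h3, y, hy, by rw [pow_one]⟩
        rw [h2, Submodule.mem_bot] at h4
        exact h4
    refine h0 (key n x hx ?_)
    rw [pow_succ', Module.End.mul_apply, hn x hx, map_zero]
  by_contra hcon
  push Not at hcon
  have hnpos : 0 < n := by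
    rcases Nat.eq_zero_or_pos n with rfl | h
    · exfalso
      apply h0
      have := hn x hx
      rw [pow_zero, Module.End.one_apply] at this
      rw [this, map_zero]
    · exact h
  have h1 : ∀ j, 0 < j → j ≤ n → w j = w 1 := by
    intro j
    induction j with
    | zero => intro h; omega
    | succ j ih =>
      intro _ hjn
      rcases Nat.eq_zero_or_pos j with rfl | hj
      · rfl
      · have h2 := hcon j hj (by omega)
        have h3 : cN N V j = w j - w (j + 1) := rfl
        have h4 : w (j + 1) ≤ w j := Submodule.finrank_mono (KN_succ_le hV j)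
        have h5 := ih hj (by omega)
        omega
  exact hw1 (by rw [← h1 n hnpos le_rfl, hwn])

end Pool.Agent.Q55.SD
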