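import Pool.Agent.Q55.Gp.JFinal
import Pool.Agent.Q55.Gp.Var
import Pool.Agent.Q55.SD.Num

/-!
# The algebraic classes in the middle degree and the Jordan type of Frobenius
-/

set_option autoImplicit false
set_option linter.unusedSectionVars false

open CategoryTheory AlgebraicGeometry Polynomial
open scoped TensorProduct

universe u v

namespace Pool.Agent.Q55.SD

open Module
open Pool.Agent.H914 Pool.Agent.H914.VarClass Pool.Agent.H914.VarClass.Obj
  Pool.Agent.H914.WeilCohomology Pool.Agent.W534 Pool.Agent.Y133.Half Pool.Agent.W552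
  Pool.Agent.H281R3.HT Pool.Agent.TH132.P Pool.Agent.H447 Pool.Agent.Q55.Gp
open Pool.Agent.W458.MF (hasEigenvalue_of_gen)

variable {k : Type u} [Field k] {𝒱 : VarClass k} {ops : CycleOps 𝒱}
  {W : WeilCohomology.{u, v} ops} {X Y Z : 𝒱.Obj} {p : ℕ} {Φ : FrobSystem W p} {s s' : ℕ}
  {σ : W.K →+* ℂ}

/-- **The rank of the form of a stable subspace.** -/
theorem rank_formP_of {V : Submodule W.K (W.H X)} {i : ℕ} (hVg : V ≤ W.gr X i) (hS : Stb V)
    {N : Module.End W.K (W.H X)} (hV : ∀ x ∈ V, N x ∈ V) {n : ℕ} (hn : ∀ x ∈ V, (N ^ n) x = 0)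
    (hcomm : ∀ u ∈ AA W X, ∀ x ∈ V, u (N x) = N (u x))
    {π : Module.End W.K (W.H X)} (hπ1 : ∀ x, π x ∈ V) (hπ2 : ∀ x ∈ V, π x = x) :
    finrank W.K (LinearMap.range (res (formP π) (spanCycles W (X.prod X) (X.dim : ℕ))
      (spanCycles W (X.prod X) (X.dim : ℕ)))) ≤ ∑ k ∈ Finset.range n, cN N V k ^ 2 := by
  obtain ⟨C, ρ, hC, hρ⟩ := exists_rho hV hn
  rw [← hC]
  refine rank_le_of_ker _ (ρ ∘ₗ (Y133.Half.corrL W X X) ∘ₗ
    (spanCycles W (X.prod X) (X.dim : ℕ)).subtype) ?_
  rintro ⟨a, ha⟩ h0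
  apply LinearMap.ext
  rintro ⟨b, hb⟩
  rw [res_apply, LinearMap.zero_apply, formP_apply]
  have ha' : CommOn N V (W.corr a) := fun x hx =>
    ⟨hS _ (corr_mem_AA ha) x hx, hcomm _ (corr_mem_AA ha) x hx⟩
  have hb' : CommOn N V (W.corr (W.map (swap X X) b)) := fun x hx =>
    ⟨hS _ (corr_mem_AA (Gp.swap_span hb)) x hx, hcomm _ (corr_mem_AA (Gp.swap_span hb)) x hx⟩
  have h1 := hρ _ ha' h0 _ hb'
  set w : Module.End W.K (W.H X) := W.corr a * W.corr (W.map (swap X X) b) with hw
  set T : Module.End W.K (W.H X) := par (W.isInternal X) ∘ₗ π ∘ₗ W.corr a ∘ₗ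
    W.corr (W.map (swap X X) b) with hT
  have hTx : ∀ x, T x = (-1 : W.K) ^ i • π (w x) := by
    intro x
    exact PH.par (PH.of (hVg (hπ1 (w x))))
  have hwV : ∀ x ∈ V, w x ∈ V := fun x hx => (ha' _ (hb' x hx).1).1
  have hTp : ∀ j, ∀ x ∈ V, (T ^ j) x = ((-1 : W.K) ^ i) ^ j • (w ^ j) x := by
    intro j
    induction j with
    | zero => intro x _; rw [pow_zero, pow_zero, pow_zero, one_smul]
    | succ j ih =>
      intro x hx
      have e1 : (T ^ (j + 1)) x = (T ^ j) (T x) := by rw [pow_succ, Module.End.mul_apply]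
      have e2 : (w ^ (j + 1)) x = (w ^ j) (w x) := by
        rw [pow_succ]
        exact Module.End.mul_apply _ _ _
      rw [e1, e2, hTx, hπ2 _ (hwV x hx), map_smul, ih _ (hwV x hx), smul_smul,
        pow_succ ((-1 : W.K) ^ i), mul_comm]
  have hnil : IsNilpotent T := by
    refine ⟨n * n + 1, ?_⟩
    apply LinearMap.ext
    intro x
    have hx : T x ∈ V := by
      rw [hTx]
      exact Submodule.smul_mem _ _ (hπ1 _)
    rw [pow_succ, Module.End.mul_apply, hTp _ _ hx, h1 _ hx, smul_zero, LinearMap.zero_apply]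
  exact (LinearMap.isNilpotent_trace_of_isNilpotent hnil).eq_zero

/-- The form of a stable subspace on which the operators are arbitrary. -/
lemma rank_formP_sq {V : Submodule W.K (W.H X)} {i : ℕ} (hVg : V ≤ W.gr X i) (hS : Stb V)
    {π : Module.End W.K (W.H X)} (hπ1 : ∀ x, π x ∈ V) (hπ2 : ∀ x ∈ V, π x = x) :
    finrank W.K (LinearMap.range (res (formP π) (spanCycles W (X.prod X) (X.dim : ℕ))
      (spanCycles W (X.prod X) (X.dim : ℕ)))) ≤ finrank W.K V ^ 2 := by
  have h1 := rank_formP_of (N := 0) (n := 1) hVg hS (fun x _ => V.zero_mem)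
    (fun x _ => by rw [pow_one]; rfl) (fun u _ x _ => map_zero u) hπ1 hπ2
  refine h1.trans ?_
  rw [Finset.sum_range_one]
  apply Nat.pow_le_pow_left
  rw [cN]
  exact (Nat.sub_le _ _).trans (Submodule.finrank_mono KN_le)

/-- The part of the generalised eigenspace orthogonal to the algebraic classes is stable. -/
lemma Lev.stb_perp (L : Lev Φ X s s') {i : ℕ} {μ : W.K} (l : ℕ) :
    Stb (perp W (VE Φ X s i μ) (spanCycles W X (l : ℕ))) := by
  intro u hu x hx
  refine ⟨L.apply hu hx.1, ?_⟩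
  obtain ⟨c, hc, rfl⟩ := exists_of_mem_AA hu
  have hev : c ∈ PH W (X.prod X) 0 := PH.of' (by omega) (Pool.Agent.H914.span_gr hc)
  intro w hw
  rw [tr_corr' hev]
  exact hx.2 _ (stb_span l _ (corr_mem_AA (Gp.swap_span hc)) w hw)

/-- A projection to a subspace which kills a disjoint subspace. -/
lemma exists_proj {K H : Type*} [Field K] [AddCommGroup H] [Module K H] {P T : Submodule K H}
    (h : Disjoint P T) : ∃ g : Module.End K H, (∀ x, g x ∈ P) ∧ (∀ x ∈ P, g x = x) ∧
      ∀ x ∈ T, g x = 0 := by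
  obtain ⟨T', hT', hc⟩ := h.symm.exists_isCompl
  refine ⟨P.subtype ∘ₗ P.projectionOnto T' hc.symm, fun x => (P.projectionOnto T' hc.symm x).2,
    fun x hx => ?_, fun x hx => ?_⟩
  · exact congrArg Subtype.val (Submodule.projectionOnto_apply_left hc.symm ⟨x, hx⟩)
  · have h1 := (Submodule.projectionOnto_apply_eq_zero_iff hc.symm (x := x)).2 (hT' hx)
    exact congrArg Subtype.val h1

/-- The generalised eigenspace for `q ^ e` in the middle degree `2 e`, the space of the algebraic
classes and its orthogonal complement. -/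
lemma split_data {e : ℕ} (he : X.dim = 2 * e) (hD : HomEqNumIn W X e) {V : Submodule W.K (W.H X)}
    (hPV : spanCycles W X (e : ℕ) ≤ V) :
    Disjoint (spanCycles W X (e : ℕ)) (perp W V (spanCycles W X (e : ℕ))) ∧
    spanCycles W X (e : ℕ) ⊔ perp W V (spanCycles W X (e : ℕ)) = V ∧
    finrank W.K V = finrank W.K (spanCycles W X (e : ℕ)) +
      finrank W.K (perp W V (spanCycles W X (e : ℕ))) ∧
    numRank ops X e = finrank W.K (spanCycles W X (e : ℕ)) := by
  have hinj := pair_injective (W := W) (Z := X) (j := e) (l := e) (by omega) hD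
  set P := spanCycles W X (e : ℕ) with hP
  set T := perp W V P with hT
  have hdis : Disjoint P T := by
    rw [Submodule.disjoint_def]
    intro x hx hx'
    have h1 : (⟨x, hx⟩ : P) = 0 := by
      apply hinj
      rw [map_zero]
      exact LinearMap.ext fun w => hx'.2 _ w.2
    exact congrArg Subtype.val h1
  have h1 := Submodule.finrank_add_le_finrank_add_finrank P T
  have h2 := finrank_perp (W := W) V P
  rw [← hT] at h2
  have h3 : P ⊔ T ≤ V := sup_le hPV fun x hx => hx.1
  have h4 := Submodule.finrank_mono h3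
  have h5 := Submodule.finrank_sup_add_finrank_inf_eq P T
  rw [hdis.eq_bot, finrank_bot, add_zero] at h5
  have h6 : finrank W.K (P ⊔ T : Submodule W.K (W.H X)) = finrank W.K V := by omega
  refine ⟨hdis, Submodule.eq_of_le_of_finrank_eq h3 h6, by omega, ?_⟩
  rw [numRank_eq (W := W) (by omega), show X.dim - e = e by omega]
  exact LinearMap.finrank_range_of_inj hinj

section

variable [IsAlgClosed W.K]

/-- **The algebraic classes in the middle degree and the numerical rank of `X × X`.** -/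
theorem Lev.ns_bound (L : Lev Φ X s s') (hp : 1 < p) (hRH : ∀ Z : 𝒱.Obj, RiemannHyp Φ σ Z)
    {δ : ℕ} (h : PoleDefect Φ σ (X.prod X) X.dim δ) {e : ℕ} (he : X.dim = 2 * e)
    (hD : HomEqNumIn W X e) {μ : W.K}
    (hPV : spanCycles W X (e : ℕ) ≤ VE Φ X s (2 * e) μ) :
    finrank W.K (VE Φ X s (2 * e) μ) ^ 2 ≤ numRank ops X e ^ 2 +
      ∑ j ∈ Finset.range (finrank W.K (W.H X)),
        cN (Nm Φ X s μ) (perp W (VE Φ X s (2 * e) μ) (spanCycles W X (e : ℕ))) j ^ 2 + δ := by
  classical
  obtain ⟨hdis, hsup, hfin, hnum⟩ := split_data he hD hPV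
  set V := VE Φ X s (2 * e) μ with hV
  set P := spanCycles W X (e : ℕ) with hP
  set T := perp W V P with hT
  by_cases hV0 : V = ⊥
  · rw [hV0, finrank_bot]
    exact Nat.zero_le _
  choose d hd using exists_degree (Φ := Φ) (Z := X) (s := s) hp (hRH X) L.pos
  have hdμ : d μ = 2 * e := by
    refine degree_unique (Φ := Φ) (s := s) (μ := μ) hp (hRH X) L.pos ?_ hV0
    intro h0
    apply hV0
    rw [eq_bot_iff, ← h0, ← hd μ]
    exact fun x hx => hx.1
  have hμe : μ ∈ eigs Φ X s := by
    by_contra h0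
    exact hV0 (VE_bot h0)
  obtain ⟨π, hπ1, hπ2, hπ3⟩ := exists_projs Φ X s
  have hπV : ∀ x, π μ x ∈ V := by
    intro x
    have h1 := hπ1 μ x
    rw [hd μ, hdμ] at h1
    exact h1
  have hπV2 : ∀ x ∈ V, π μ x = x := fun x hx => hπ2 μ x hx.1
  -- the two parts of the projector
  obtain ⟨g, hg1, hg2, hg3⟩ := exists_proj hdis
  have hgV : ∀ x ∈ V, x - g x ∈ T := by
    intro x hx
    rw [← hsup] at hx
    obtain ⟨a, ha, t, ht, rfl⟩ := Submodule.mem_sup.1 hx
    rw [map_add, hg2 a ha, hg3 t ht, add_zero, add_sub_cancel_left]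
    exact ht
  set πP : Module.End W.K (W.H X) := g * π μ with hπP
  set πT : Module.End W.K (W.H X) := π μ - g * π μ with hπT
  have hsum : π μ = πP + πT := by rw [hπP, hπT, add_sub_cancel]
  have hTV : ∀ x ∈ T, x ∈ V := fun x hx => hx.1
  -- the bounds for the forms
  have hbP : finrank W.K (LinearMap.range (res (formP πP)
      (spanCycles W (X.prod X) (X.dim : ℕ)) (spanCycles W (X.prod X) (X.dim : ℕ)))) ≤
      finrank W.K P ^ 2 := by
    refine rank_formP_sq (i := 2 * e) (fun x hx => (hPV hx).2) (stb_span e) (fun x => hg1 _)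
      fun x hx => ?_
    rw [hπP, Module.End.mul_apply, hπV2 x (hPV hx), hg2 x hx]
  have hbT : finrank W.K (LinearMap.range (res (formP πT)
      (spanCycles W (X.prod X) (X.dim : ℕ)) (spanCycles W (X.prod X) (X.dim : ℕ)))) ≤
      ∑ j ∈ Finset.range (finrank W.K (W.H X)), cN (Nm Φ X s μ) T j ^ 2 := by
    refine rank_formP_of (i := 2 * e) (fun x hx => (hTV x hx).2) (Lev.stb_perp L e)
      (fun x hx => ?_) (fun x hx => VE_nil s (2 * e) μ x (hTV x hx)) (fun u hu x _ => ?_)
      (fun x => ?_) fun x hx => ?_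
    · rw [Nm_apply]
      exact Submodule.sub_mem _ (Lev.stb_perp L e _ L.frob_mem x hx) (Submodule.smul_mem _ _ hx)
    · rw [Nm_apply, Nm_apply, map_sub, map_smul, L.comm hu]
    · rw [hπT, LinearMap.sub_apply, Module.End.mul_apply]
      exact hgV _ (hπV x)
    · rw [hπT, LinearMap.sub_apply, Module.End.mul_apply, hπV2 x (hTV x hx), hg3 x hx, sub_zero]
  -- the numerical rank
  set R := fun B : W.H (X.prod X) →ₗ[W.K] W.H (X.prod X) →ₗ[W.K] W.K =>
    finrank W.K (LinearMap.range (res B (spanCycles W (X.prod X) (X.dim : ℕ))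
      (spanCycles W (X.prod X) (X.dim : ℕ)))) with hR
  set c : W.K → ℕ := fun ν => ∑ j ∈ Finset.range (finrank W.K (W.H X)),
    cc Φ X s (d ν) ν j ^ 2 with hc
  have hother : ∀ ν, R (formP (π ν)) ≤ c ν := fun ν =>
    L.rank_formP (fun x => by rw [← hd]; exact hπ1 ν x) fun x hx => hπ2 ν x (by rw [hd]; exact hx)
  have hk : kRank W (X.prod X) X.dim X.dim ≤ (finrank W.K P ^ 2 +
      ∑ j ∈ Finset.range (finrank W.K (W.H X)), cN (Nm Φ X s μ) T j ^ 2) +
      ∑ ν ∈ (eigs Φ X s).erase μ, c ν := by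
    have h1 : res (trB W (X.prod X)) (spanCycles W (X.prod X) (X.dim : ℕ))
        (spanCycles W (X.prod X) (X.dim : ℕ)) =
        (res (formP πP) (spanCycles W (X.prod X) (X.dim : ℕ))
          (spanCycles W (X.prod X) (X.dim : ℕ)) +
        res (formP πT) (spanCycles W (X.prod X) (X.dim : ℕ))
          (spanCycles W (X.prod X) (X.dim : ℕ))) +
        ∑ ν ∈ (eigs Φ X s).erase μ, res (formP (π ν))
          (spanCycles W (X.prod X) (X.dim : ℕ)) (spanCycles W (X.prod X) (X.dim : ℕ)) := by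
      have h2 : formP (π μ) = formP πP + formP πT := by
        have h3 := formP_sum (W := W) (X := X) (Finset.univ : Finset Bool)
          (fun b => if b then πP else πT)
        simp only [Fintype.sum_bool, if_true, Bool.false_eq_true, if_false] at h3
        rw [hsum]
        exact h3
      have h4 : ∀ B B' : W.H (X.prod X) →ₗ[W.K] W.H (X.prod X) →ₗ[W.K] W.K,
          ∀ A : Submodule W.K (W.H (X.prod X)), res (B + B') A A = res B A A + res B' A A := by
        intro B B' A
        rfl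
      rw [← h4, ← h2, Finset.add_sum_erase _ (fun ν => res (formP (π ν))
          (spanCycles W (X.prod X) (X.dim : ℕ)) (spanCycles W (X.prod X) (X.dim : ℕ))) hμe,
        ← res_sum, ← formP_sum, hπ3]
      apply LinearMap.ext
      intro a
      apply LinearMap.ext
      intro b
      rw [res_apply, res_apply, formP_one, trB_apply]
    change finrank W.K (LinearMap.range (res (trB W (X.prod X))
      (spanCycles W (X.prod X) (X.dim : ℕ)) (spanCycles W (X.prod X) (X.dim : ℕ)))) ≤ _
    rw [h1]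
    have hadd : ∀ f g : spanCycles W (X.prod X) (X.dim : ℕ) →ₗ[W.K]
        Dual W.K (spanCycles W (X.prod X) (X.dim : ℕ)),
        finrank W.K (LinearMap.range (f + g)) ≤
          finrank W.K (LinearMap.range f) + finrank W.K (LinearMap.range g) := by
      intro f g
      have h5 := rank_sum_le (Finset.univ : Finset Bool) (fun b => if b then f else g)
      rw [Fintype.sum_bool, Fintype.sum_bool] at h5
      exact h5
    refine (hadd _ _).trans (Nat.add_le_add ((hadd _ _).trans (Nat.add_le_add hbP hbT)) ?_)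
    exact (rank_sum_le _ _).trans (Finset.sum_le_sum fun ν _ => hother ν)
  -- the order of the pole
  have hm := L.sum_sq_le hp (hRH X)
  rw [L.finrank_eq hp (hRH _) h, ← sum_degrees hp (hRH X) L.pos
    (f := fun i μ => finrank W.K (VE Φ X s i μ) ^ 2)
    (fun i μ h => by rw [h, finrank_bot]; rfl) hd, ← Finset.add_sum_erase _ _ hμe] at hm
  have hle : ∑ ν ∈ (eigs Φ X s).erase μ, c ν ≤
      ∑ ν ∈ (eigs Φ X s).erase μ, finrank W.K (VE Φ X s (d ν) ν) ^ 2 :=
    Finset.sum_le_sum fun ν _ => sum_cc_sq_le s (d ν) ν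
  rw [hdμ, ← hV] at hm
  rw [hnum]
  omega

end

end Pool.Agent.Q55.SD
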